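import Pool.Agent.Helper52.KP.StG

/-!
# Project KP, module CLO: points of the closure of full rank are on the orbit
-/

set_option autoImplicit false

namespace Pool.Agent.Helper8.KP

open Pool.Agent.Helper52.KP Pool.Agent.Helper67.NO MeasureTheory Filter
open scoped ContDiff ComplexOrder Topology

universe u

theorem exists_rows {p n : ℕ} (A : Matrix (Fin p) (Fin n) ℂ) {m : ℕ} (h : m ≤ A.rank) :
    ∃ c : Fin m → Fin p, LinearIndependent ℂ (fun i => A (c i)) := by
  obtain ⟨κ, a, ha, hs, hli⟩ := exists_linearIndependent' ℂ (fun i => A i)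
  have : Finite κ := Finite.of_injective a ha
  have := Fintype.ofFinite κ
  have hcard : Fintype.card κ = A.rank := by
    rw [A.rank_eq_finrank_span_row, ← finrank_span_eq_card hli, hs]
    rfl
  have hle : Fintype.card (Fin m) ≤ Fintype.card κ := by
    rw [Fintype.card_fin, hcard]; exact h
  have e := (Function.Embedding.nonempty_of_card_le hle).some
  exact ⟨a ∘ e, hli.comp e e.injective⟩

theorem exists_minor {p n : ℕ} (A : Matrix (Fin p) (Fin n) ℂ) {m : ℕ} (h : m ≤ A.rank) :
    ∃ (a : Fin m → Fin p) (b : Fin m → Fin n), (A.submatrix a b).det ≠ 0 := by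
  obtain ⟨a, ha⟩ := exists_rows A h
  have hB : (A.submatrix a id).rank = m := by
    have := LinearIndependent.rank_matrix (M := A.submatrix a id) (R := ℂ) ha
    simpa using this
  have hBt : ((A.submatrix a id).transpose).rank = m := by rw [Matrix.rank_transpose, hB]
  obtain ⟨b, hb⟩ := exists_rows (A.submatrix a id).transpose hBt.ge
  refine ⟨a, b, ?_⟩
  have h1 : LinearIndependent ℂ (((A.submatrix a id).transpose).submatrix b id).row := hb
  rw [Matrix.linearIndependent_rows_iff_isUnit, Matrix.isUnit_iff_isUnit_det,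
    isUnit_iff_ne_zero] at h1
  have h2 : ((A.submatrix a id).transpose).submatrix b id = (A.submatrix a b).transpose := by
    ext i j; rfl
  rwa [h2, Matrix.det_transpose] at h1

section

variable {g : Type u} [LieRing g] [LieAlgebra ℂ g] [FiniteDimensional ℂ g]

noncomputable def am (x : g) : Matrix (Fin (Module.finrank ℂ g)) (Fin (Module.finrank ℂ g)) ℂ :=
  LinearMap.toMatrix (Module.finBasis ℂ g) (Module.finBasis ℂ g)
    (LieAlgebra.ad ℂ g x : g →ₗ[ℂ] g)

theorem rank_am (x : g) : (am x).rank = rk x := by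
  rw [Matrix.rank_eq_finrank_range_toLin (am x) (Module.finBasis ℂ g) (Module.finBasis ℂ g)]
  unfold am rk
  rw [Matrix.toLin_toMatrix]

theorem mns_pos_iff (m : ℕ) (x : g) : 0 < mns m x ↔ m ≤ rk x := by
  constructor
  · intro h
    by_contra hcon
    have h0 : mns m x = 0 := by
      unfold mns
      refine Finset.sum_eq_zero fun a _ => Finset.sum_eq_zero fun b _ => ?_
      rw [norm_eq_zero]
      by_contra hne
      apply hcon
      have h1 : ((am x).submatrix a b).rank = m := by
        have := Matrix.rank_of_det_ne_zero (A := (am x).submatrix a b) hne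
        simpa using this
      rw [← rank_am, ← h1]
      exact Matrix.rank_submatrix_le _ _ _
    rw [h0] at h
    exact lt_irrefl _ h
  · intro h
    rw [← rank_am] at h
    obtain ⟨a, b, hab⟩ := exists_minor (am x) h
    unfold mns
    refine Finset.sum_pos' (fun a _ => Finset.sum_nonneg fun b _ => norm_nonneg _)
      ⟨a, Finset.mem_univ _, ?_⟩
    exact Finset.sum_pos' (fun b _ => norm_nonneg _) ⟨b, Finset.mem_univ _, norm_pos_iff.2 hab⟩

noncomputable def amL (g : Type u) [LieRing g] [LieAlgebra ℂ g] [FiniteDimensional ℂ g] :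
    (Fin (Module.finrank ℂ g) → ℂ) →ₗ[ℂ]
      Matrix (Fin (Module.finrank ℂ g)) (Fin (Module.finrank ℂ g)) ℂ :=
  (LinearMap.toMatrix (Module.finBasis ℂ g) (Module.finBasis ℂ g)).toLinearMap ∘ₗ
    (LieAlgebra.ad ℂ g : g →ₗ[ℂ] Module.End ℂ g) ∘ₗ
      (Module.finBasis ℂ g).equivFun.symm.toLinearMap

theorem symm_co (x : g) : (Module.finBasis ℂ g).equivFun.symm (co x) = x := by
  have : co x = (Module.finBasis ℂ g).equivFun x := by
    ext i; rfl
  rw [this, LinearEquiv.symm_apply_apply]

theorem amL_co (x : g) : amL g (co x) = am x := by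
  unfold amL am
  simp only [LinearMap.comp_apply, LinearEquiv.coe_coe]
  rw [symm_co]
  rfl

theorem tendsto_am {y : ℕ → g} {x : g} (h : Tendsto (fun i => co (y i)) atTop (𝓝 (co x))) :
    Tendsto (fun i => am (y i)) atTop (𝓝 (am x)) := by
  have hc : Continuous (amL g) := LinearMap.continuous_of_finiteDimensional _
  have := (hc.tendsto (co x)).comp h
  rw [amL_co] at this
  refine this.congr fun i => ?_
  rw [Function.comp_apply, amL_co]

theorem ad_pow_of_nilpotent {x : g} (h : IsNilpotent (LieAlgebra.ad ℂ g x)) :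
    (am x) ^ (Module.finrank ℂ g) = 0 := by
  have h1 := (LinearMap.isNilpotent_iff_charpoly (LieAlgebra.ad ℂ g x : Module.End ℂ g)).1 h
  have h2 := LinearMap.aeval_self_charpoly (LieAlgebra.ad ℂ g x : Module.End ℂ g)
  rw [h1, map_pow, Polynomial.aeval_X] at h2
  unfold am
  rw [LinearMap.toMatrix_pow, h2, map_zero]

theorem nilpotent_of_pow {x : g} (h : (am x) ^ (Module.finrank ℂ g) = 0) :
    IsNilpotent (LieAlgebra.ad ℂ g x) := by
  refine ⟨Module.finrank ℂ g, ?_⟩
  unfold am at h
  rw [LinearMap.toMatrix_pow] at h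
  exact (LinearMap.toMatrix (Module.finBasis ℂ g) (Module.finBasis ℂ g)).map_eq_zero_iff.1 h

end

theorem hCLO (hNEA : StNEA.{u}) (hORB : StORB.{u}) : Pool.Agent.Helper52.KP.StCLO.{u} := by
  intro g _ _ _ _ x₀ hx₀ hnil
  obtain ⟨-, htrans, hsymm, hchart, -, hfrm, -⟩ := hORB g
  refine ⟨fun y hy => ?_, ?_⟩
  · rw [mns_pos_iff, (hsymm x₀ y hy).2.1]
  intro x y hy hx hlim
  have hynil : ∀ i, IsNilpotent (LieAlgebra.ad ℂ g (y i)) := fun i =>
    (hsymm x₀ (y i) (hy i)).2.2 hnil
  have hyrk : ∀ i, rk (y i) = rk x₀ := fun i => (hsymm x₀ (y i) (hy i)).2.1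
  have hlimM := tendsto_am hlim
  -- nilpotency
  have hxnil : IsNilpotent (LieAlgebra.ad ℂ g x) := by
    apply nilpotent_of_pow
    have h1 := hlimM.pow (Module.finrank ℂ g)
    refine tendsto_nhds_unique h1 ?_
    refine tendsto_const_nhds.congr fun i => ?_
    rw [ad_pow_of_nilpotent (hynil i)]
  -- rank
  have hxrk : rk x = rk x₀ := by
    apply le_antisymm _ ((mns_pos_iff _ _).1 hx)
    by_contra hcon
    have h1 : rk x₀ + 1 ≤ (am x).rank := by rw [rank_am]; omega
    obtain ⟨a, b, hab⟩ := exists_minor (am x) h1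
    apply hab
    have h2 : Tendsto (fun i => ((am (y i)).submatrix a b).det) atTop
        (𝓝 ((am x).submatrix a b).det) := by
      have hc : Continuous fun M : Matrix (Fin (Module.finrank ℂ g)) (Fin (Module.finrank ℂ g)) ℂ =>
          (M.submatrix a b).det := (continuous_id.matrix_submatrix a b).matrix_det
      exact (hc.tendsto _).comp hlimM
    refine tendsto_nhds_unique h2 (tendsto_const_nhds.congr fun i => ?_)
    by_contra hne
    have h3 : ((am (y i)).submatrix a b).rank = rk x₀ + 1 := by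
      have := Matrix.rank_of_det_ne_zero (A := (am (y i)).submatrix a b) (fun h => hne h.symm)
      simpa using this
    have h4 : ((am (y i)).submatrix a b).rank ≤ (am (y i)).rank := Matrix.rank_submatrix_le _ _ _
    rw [h3, rank_am, hyrk] at h4
    omega
  -- x ≠ 0
  have hrk0 : 0 < rk x₀ := by
    rw [Nat.pos_iff_ne_zero]
    intro h0
    apply hx₀
    have h1 : LinearMap.range (LieAlgebra.ad ℂ g x₀ : g →ₗ[ℂ] g) = ⊥ := by
      rw [← Submodule.finrank_eq_zero (R := ℂ)]; exact h0
    have h2 : LieAlgebra.ad ℂ g x₀ = 0 := LinearMap.range_eq_bot.1 h1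
    have h4 : x₀ ∈ LieAlgebra.center ℂ g := by
      rw [LieModule.mem_maxTrivSubmodule]
      intro z
      have h5 : LieAlgebra.ad ℂ g x₀ z = 0 := by rw [h2]; rfl
      rw [LieAlgebra.ad_apply] at h5
      rw [← lie_skew, h5, neg_zero]
    rw [LieAlgebra.center_eq_bot] at h4
    simpa using h4
  have hx0 : x ≠ 0 := by
    rintro rfl
    have : rk (0 : g) = 0 := by
      unfold rk
      rw [map_zero]
      simp
    omega
  have hsize : ∀ δ : ℝ, 0 < δ → ∀ᶠ i in atTop, size (y i - x) < δ := by
    intro δ hδ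
    have h1 : ∀ i, size (y i - x) = ∑ j, ‖co (y i) j - co x j‖ := by
      intro i
      unfold size co
      simp
    have h2 : Tendsto (fun i => ∑ j, ‖co (y i) j - co x j‖) atTop (𝓝 0) := by
      have h3 : Tendsto (fun i => ∑ j, ‖co (y i) j - co x j‖) atTop
          (𝓝 (∑ j, ‖co x j - co x j‖)) := by
        refine tendsto_finsetSum _ fun j _ => ?_
        exact (((tendsto_pi_nhds.1 hlim j).sub_const _).norm)
      simpa using h3
    filter_upwards [h2.eventually_lt_const hδ] with i hi
    rw [h1]; exact hi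
  have main : ∀ (k : ℕ) (X : Fin k → g), Frm x X → ∃ w : ℕ → Fin k → ℂ,
      Tendsto w atTop (𝓝 0) ∧ ∀ᶠ i in atTop, y i = chart x X (w i) := by
    intro k X hX
    obtain ⟨W, δ, ε, hδ, hε, hWd, hW1, hW2⟩ := hNEA g x hx0 hxnil k X hX
    refine ⟨fun i => W (y i), ?_, ?_⟩
    · have hopen : IsOpen {v : Fin (Module.finrank ℂ g) → ℂ | ∑ i, ‖v i - co x i‖ < δ} := by
        refine isOpen_lt ?_ continuous_const
        fun_prop
      have hmem : co x ∈ {v : Fin (Module.finrank ℂ g) → ℂ | ∑ i, ‖v i - co x i‖ < δ} := by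
        simpa using hδ
      have hcont := (hWd.continuousOn.continuousAt (hopen.mem_nhds hmem)).tendsto.comp hlim
      have hWx : W x = 0 := by
        have h1 := (hW2 0 (by simpa using hε)).2
        rwa [(hchart k x X).2.1] at h1
      rw [symm_co, hWx] at hcont
      refine hcont.congr fun i => ?_
      rw [Function.comp_apply, symm_co]
    · filter_upwards [hsize δ hδ] with i hi
      exact hW1 (y i) hi (hynil i) (by rw [hyrk, hxrk])
  refine ⟨?_, main⟩
  obtain ⟨X, hX⟩ := hfrm x
  obtain ⟨w, -, hw⟩ := main _ X hX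
  obtain ⟨i, hi⟩ := hw.exists
  have h1 : Orb x (y i) := by
    rw [hi]
    exact Orb.step _ _ Orb.base
  exact htrans _ _ _ (hy i) (hsymm _ _ h1).1

end Pool.Agent.Helper8.KP
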