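import Pool.Agent.Helper52.KP.StB
import Pool.Agent.Helper8.KP.M_CLO

/-!
# Project KP, module BDY: the boundary of the orbit
-/

set_option autoImplicit false

namespace Pool.Agent.Helper8.KP

open Pool.Agent.Helper52.KP Pool.Agent.Helper67.NO MeasureTheory Filter
open scoped ContDiff ComplexOrder Topology

universe u

section

variable {g : Type u} [LieRing g] [LieAlgebra ℂ g] [FiniteDimensional ℂ g]

theorem nil_limit {y : ℕ → g} {x : g} (hlim : Tendsto (fun i => co (y i)) atTop (𝓝 (co x)))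
    (hynil : ∀ i, IsNilpotent (LieAlgebra.ad ℂ g (y i))) : IsNilpotent (LieAlgebra.ad ℂ g x) := by
  apply nilpotent_of_pow
  have h1 := (tendsto_am hlim).pow (Module.finrank ℂ g)
  refine tendsto_nhds_unique h1 ?_
  refine tendsto_const_nhds.congr fun i => ?_
  rw [ad_pow_of_nilpotent (hynil i)]

theorem rk_limit {y : ℕ → g} {x : g} (hlim : Tendsto (fun i => co (y i)) atTop (𝓝 (co x)))
    {m : ℕ} (hyrk : ∀ i, rk (y i) ≤ m) : rk x ≤ m := by
  by_contra hcon
  have h1 : m + 1 ≤ (am x).rank := by rw [rank_am]; omega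
  obtain ⟨a, b, hab⟩ := exists_minor (am x) h1
  apply hab
  have h2 : Tendsto (fun i => ((am (y i)).submatrix a b).det) atTop
      (𝓝 ((am x).submatrix a b).det) := by
    have hc : Continuous fun M : Matrix (Fin (Module.finrank ℂ g)) (Fin (Module.finrank ℂ g)) ℂ =>
        (M.submatrix a b).det := (continuous_id.matrix_submatrix a b).matrix_det
    exact (hc.tendsto _).comp (tendsto_am hlim)
  refine tendsto_nhds_unique h2 (tendsto_const_nhds.congr fun i => ?_)
  by_contra hne
  have h3 : ((am (y i)).submatrix a b).rank = m + 1 := by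
    have := Matrix.rank_of_det_ne_zero (A := (am (y i)).submatrix a b) (fun h => hne h.symm)
    simpa using this
  have h4 : ((am (y i)).submatrix a b).rank ≤ (am (y i)).rank := Matrix.rank_submatrix_le _ _ _
  rw [h3, rank_am] at h4
  have := hyrk i
  omega

theorem rk_pos [LieAlgebra.IsSemisimple ℂ g] {x₀ : g} (hx₀ : x₀ ≠ 0) : 0 < rk x₀ := by
  rw [Nat.pos_iff_ne_zero]
  intro h0
  apply hx₀
  have h1 : LinearMap.range (LieAlgebra.ad ℂ g x₀ : g →ₗ[ℂ] g) = ⊥ := by
    rw [← Submodule.finrank_eq_zero (R := ℂ)]; exact h0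
  have h2 : LieAlgebra.ad ℂ g x₀ = 0 := LinearMap.range_eq_bot.1 h1
  have h4 : x₀ ∈ LieAlgebra.center ℂ g := by
    rw [LieModule.mem_maxTrivSubmodule]
    intro z
    have h5 : LieAlgebra.ad ℂ g x₀ z = 0 := by rw [h2]; rfl
    rw [LieAlgebra.ad_apply] at h5
    rw [← lie_skew, h5, neg_zero]
  rw [LieAlgebra.center_eq_bot] at h4
  simpa using h4

end

theorem hBDY (hCOV : StCOV.{u}) (hEVN : StEVN.{u}) (hCLO' : StCLO.{u}) (hORB : StORB.{u}) :
    Pool.Agent.Helper52.KP.StBDY.{u} := by
  intro g _ _ _ _ x₀ hx₀ hnil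
  obtain ⟨-, -, hsymm, -⟩ := hORB g
  obtain ⟨hC1, hC2⟩ := hCLO' g x₀ hx₀ hnil
  have hpos := rk_pos hx₀
  have hev := hEVN g x₀
  have h2 : 2 ≤ rk x₀ := by
    obtain ⟨a, ha⟩ := hev
    omega
  refine ⟨h2, ?_⟩
  choose c hc1 hc2 using hCOV g
  set c' : ℕ → (Fin (rk x₀ - 2) → ℂ) → g := fun n =>
    if h : n.unpair.1 ≤ rk x₀ - 2 then
      fun w => c n.unpair.1 n.unpair.2 (fun j => w (Fin.castLE h j))
    else fun _ => 0 with hc'
  refine ⟨c', fun n => ?_, fun x hx => ?_⟩
  · by_cases h : n.unpair.1 ≤ rk x₀ - 2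
    · have e : c' n = fun w => c n.unpair.1 n.unpair.2 (fun j => w (Fin.castLE h j)) := by
        rw [hc']; simp only [dif_pos h]
      rw [e]
      have h1 : Differentiable ℂ (fun z => co (c n.unpair.1 n.unpair.2 z)) :=
        differentiableOn_univ.1 (hc1 n.unpair.1 n.unpair.2)
      have h3 : Differentiable ℂ (fun w : Fin (rk x₀ - 2) → ℂ => fun j => w (Fin.castLE h j)) := by
        rw [differentiable_pi]
        intro j
        exact differentiable_apply _
      exact (h1.comp h3).differentiableOn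
    · have e : c' n = fun _ => 0 := by
        rw [hc']; simp only [dif_neg h]
      rw [e]
      exact differentiableOn_const _
  · obtain ⟨v, hv, hlim⟩ := mem_closure_iff_seq_limit.1 hx
    choose y hy hyv using hv
    have hlim' : Tendsto (fun i => co (y i)) atTop (𝓝 (co x)) := by
      refine hlim.congr fun i => (hyv i).symm
    have hxnil := nil_limit hlim' fun i => (hsymm x₀ (y i) (hy i)).2.2 hnil
    have hxrk : rk x ≤ rk x₀ := rk_limit hlim' fun i => (hsymm x₀ (y i) (hy i)).2.1.le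
    refine ⟨⟨fun h => hC1 x h, fun h => (hC2 x y hy h hlim').1⟩, fun hno => ?_⟩
    have hlt : rk x < rk x₀ := by
      by_contra hcon
      apply hno
      exact (hC2 x y hy ((mns_pos_iff _ _).2 (not_lt.1 hcon)) hlim').1
    have hq : rk x ≤ rk x₀ - 2 := by
      obtain ⟨a, ha⟩ := hev
      obtain ⟨b, hb⟩ := hEVN g x
      omega
    obtain ⟨i, w, hw⟩ := hc2 (rk x) x hxnil rfl
    refine ⟨Nat.pair (rk x) i, fun j => if h : (j : ℕ) < rk x then w ⟨j, h⟩ else 0, ?_⟩
    have e : c' (Nat.pair (rk x) i) = fun w => c (rk x) i (fun j => w (Fin.castLE hq j)) := by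
      rw [hc']
      have e1 : (Nat.pair (rk x) i).unpair.1 = rk x := by rw [Nat.unpair_pair]
      have e2 : (Nat.pair (rk x) i).unpair.2 = i := by rw [Nat.unpair_pair]
      have h1 : (Nat.pair (rk x) i).unpair.1 ≤ rk x₀ - 2 := by rw [e1]; exact hq
      simp only [dif_pos h1]
      ext w
      have key : ∀ (p q : ℕ) (hp : p = rk x) (hq' : q = i) (hle : p ≤ rk x₀ - 2),
          c p q (fun j => w (Fin.castLE hle j)) = c (rk x) i (fun j => w (Fin.castLE hq j)) := by
        rintro p q rfl rfl hle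
        rfl
      exact key _ _ e1 e2 h1
    rw [e]
    refine Eq.trans ?_ hw
    simp only
    congr 1
    ext j
    simp

end Pool.Agent.Helper8.KP
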