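import Pool.Agent.Helper52.KP.StW

/-!
# Project KP, module ARE: the area formula with multiplicity
-/

set_option autoImplicit false

namespace Pool.Agent.Helper8.KP

open MeasureTheory Filter Metric Set Function
open scoped ContDiff ComplexOrder Topology NNReal ENNReal
open Pool.Agent.Helper52.KP

private theorem encard_iUnion_tsum {α : Type*} (A : ℕ → Set α) (hd : Pairwise (Disjoint on A)) :
    ENat.toENNReal (⋃ i, A i).encard = ∑' i, ENat.toENNReal (A i).encard := by
  let _ : MeasurableSpace α := ⊤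
  have h1 := measure_iUnion (μ := (Measure.count : Measure α)) hd
    (fun i => MeasurableSpace.measurableSet_top)
  have h2 : ∀ s : Set α, (Measure.count : Measure α) s = ENat.toENNReal s.encard := fun s =>
    Measure.count_apply MeasurableSpace.measurableSet_top
  simpa only [h2] using h1

private theorem exists_rad {m : ℕ} (f : (Fin m → ℂ) → (Fin m → ℂ))
    (A : (Fin m → ℂ) →L[ℝ] (Fin m → ℂ)) :
    ∃ r : ℝ≥0, r ≠ 0 ∧ (A.det ≠ 0 → ∀ s, ApproximatesLinearOn f A s r → InjOn f s) := by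
  by_cases h : A.det = 0
  · exact ⟨1, one_ne_zero, fun h' => absurd h h'⟩
  set e := A.toContinuousLinearEquivOfDetNeZero h with he
  have hA : (e : (Fin m → ℂ) →L[ℝ] (Fin m → ℂ)) = A :=
    ContinuousLinearMap.coe_toContinuousLinearEquivOfDetNeZero _ _
  rcases subsingleton_or_nontrivial (Fin m → ℂ) with hs | hs
  · exact ⟨1, one_ne_zero, fun _ s _ => injOn_of_subsingleton _ _⟩
  have hN : 0 < ‖(e.symm : (Fin m → ℂ) →L[ℝ] (Fin m → ℂ))‖₊⁻¹ :=
    inv_pos.2 e.nnnorm_symm_pos
  refine ⟨‖(e.symm : (Fin m → ℂ) →L[ℝ] (Fin m → ℂ))‖₊⁻¹ / 2, (half_pos hN).ne', fun _ s hs => ?_⟩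
  rw [← hA] at hs
  exact hs.injOn (Or.inr (half_lt_self hN))

private theorem abs_det_real {m : ℕ} (L : (Fin m → ℂ) →L[ℂ] (Fin m → ℂ)) :
    |(L.restrictScalars ℝ).det| = ‖L.det‖ ^ 2 := by
  have : (L.restrictScalars ℝ).det = Complex.normSq L.det := by
    rw [← Algebra.norm_complex_apply]
    exact LinearMap.det_restrictScalars
  rw [this, Complex.normSq_eq_norm_sq, abs_of_nonneg (by positivity)]

theorem hARE : Pool.Agent.Helper52.KP.StARE := by
  intro m U hU f hf S hSU hS g hg
  set D : (Fin m → ℂ) → ℂ := fun z => (fderiv ℂ f z).det with hD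
  have hDm : Measurable D :=
    (ContinuousLinearMap.continuous_det (𝕜 := ℂ)).measurable.comp (measurable_fderiv ℂ f)
  set S' : Set (Fin m → ℂ) := S ∩ {z | D z ≠ 0} with hS'def
  have hS' : MeasurableSet S' := hS.inter (hDm (measurableSet_singleton 0).compl)
  set f' : (Fin m → ℂ) → (Fin m → ℂ) →L[ℝ] (Fin m → ℂ) :=
    fun z => (fderiv ℂ f z).restrictScalars ℝ with hf'def
  have hf' : ∀ x ∈ S, HasFDerivAt f (f' x) x := fun x hx =>
    ((hf x (hSU hx)).differentiableAt (hU.mem_nhds (hSU hx))).hasFDerivAt.restrictScalars ℝ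
  have hdet : ∀ x, |(f' x).det| = ‖D x‖ ^ 2 := fun x => abs_det_real _
  choose r hr0 hr using exists_rad f
  obtain ⟨t, A, htd, htm, hcov, happ, hne⟩ :=
    exists_partition_approximatesLinearOn_of_hasFDerivWithinAt f S' f'
      (fun x hx => (hf' x hx.1).hasFDerivWithinAt) r hr0
  have hinj : ∀ i, InjOn f (S' ∩ t i) := by
    intro i
    rcases S'.eq_empty_or_nonempty with h0 | h0
    · rw [h0, empty_inter]; exact injOn_empty _
    obtain ⟨y, hy, hAy⟩ := hne h0 i
    refine hr (A i) ?_ _ (happ i)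
    rw [hAy]
    intro hcon
    have h1 := hdet y
    rw [hcon, abs_zero] at h1
    exact hy.2 (by simpa using h1.symm)
  have hSi : ∀ i, MeasurableSet (S' ∩ t i) := fun i => hS'.inter (htm i)
  have hSU' : S' = ⋃ i, S' ∩ t i := by
    rw [← inter_iUnion]
    exact (inter_eq_left.2 hcov).symm
  have hdisj : Pairwise (Disjoint on fun i => S' ∩ t i) := fun i j hij =>
    (htd hij).mono inter_subset_right inter_subset_right
  -- the left side
  have hL1 : ∫⁻ z in S, g (f z) * ENNReal.ofReal (‖D z‖ ^ 2) =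
      ∫⁻ z in S', g (f z) * ENNReal.ofReal (‖D z‖ ^ 2) := by
    rw [← lintegral_indicator hS, ← lintegral_indicator hS']
    congr 1
    ext z
    by_cases hz : z ∈ S
    · by_cases hz' : D z = 0
      · rw [indicator_of_mem hz, indicator_of_notMem (fun h => h.2 hz'), hz']
        simp
      · rw [indicator_of_mem hz, indicator_of_mem (show z ∈ S' from ⟨hz, hz'⟩)]
    · rw [indicator_of_notMem hz, indicator_of_notMem (fun h => hz h.1)]
  have hL2 : ∫⁻ z in S', g (f z) * ENNReal.ofReal (‖D z‖ ^ 2) =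
      ∑' i, ∫⁻ v in f '' (S' ∩ t i), g v := by
    conv_lhs => rw [hSU']
    rw [lintegral_iUnion hSi hdisj]
    congr 1
    ext i
    rw [lintegral_image_eq_lintegral_abs_det_fderiv_mul volume (hSi i)
      (fun x hx => (hf' x hx.1.1).hasFDerivWithinAt) (hinj i)]
    congr 1
    ext x
    rw [hdet, mul_comm]
  have him : ∀ i, MeasurableSet (f '' (S' ∩ t i)) := fun i =>
    measurable_image_of_fderivWithin (hSi i)
      (fun x hx => (hf' x hx.1.1).hasFDerivWithinAt) (hinj i)
  have hL3 : ∑' i, ∫⁻ v in f '' (S' ∩ t i), g v =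
      ∫⁻ v, ∑' i, (f '' (S' ∩ t i)).indicator g v := by
    rw [lintegral_tsum fun i => (hg.indicator (him i)).aemeasurable]
    congr 1
    ext i
    rw [lintegral_indicator (him i)]
  have hnull : volume (f '' (S \ S')) = 0 := by
    refine addHaar_image_eq_zero_of_det_fderivWithin_eq_zero volume (f' := f')
      (fun x hx => (hf' x hx.1).hasFDerivWithinAt) fun x hx => ?_
    have hx0 : D x = 0 := by
      by_contra hcon
      exact hx.2 ⟨hx.1, hcon⟩
    have h1 := hdet x
    rw [hx0] at h1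
    simpa using h1
  show ∫⁻ z in S, g (f z) * ENNReal.ofReal (‖D z‖ ^ 2) = _
  rw [hL1, hL2, hL3]
  apply lintegral_congr_ae
  have hae : ∀ᵐ v ∂(volume : Measure (Fin m → ℂ)), v ∉ f '' (S \ S') :=
    measure_eq_zero_iff_ae_notMem.1 hnull
  filter_upwards [hae] with v hv
  have hset : {z | z ∈ S ∧ f z = v} = ⋃ i, {z | z ∈ S' ∩ t i ∧ f z = v} := by
    ext z
    simp only [mem_ofPred_eq, mem_iUnion]
    constructor
    · rintro ⟨hz, hfz⟩
      have hz' : z ∈ S' := by
        by_contra hcon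
        exact hv ⟨z, ⟨hz, hcon⟩, hfz⟩
      have hz'' := hz'
      rw [hSU', mem_iUnion] at hz''
      obtain ⟨i, hi⟩ := hz''
      exact ⟨i, hi, hfz⟩
    · rintro ⟨i, hi, hfz⟩
      exact ⟨hi.1.1, hfz⟩
  rw [hset, encard_iUnion_tsum, ← ENNReal.tsum_mul_left]
  · congr 1
    ext i
    by_cases hvi : v ∈ f '' (S' ∩ t i)
    · obtain ⟨z, hz, hfz⟩ := hvi
      have hone : {w | w ∈ S' ∩ t i ∧ f w = v} = {z} := by
        ext w
        simp only [mem_ofPred_eq, mem_singleton_iff]
        constructor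
        · rintro ⟨hw, hfw⟩
          exact hinj i hw hz (hfw.trans hfz.symm)
        · rintro rfl
          exact ⟨hz, hfz⟩
      have hvi' : v ∈ f '' (S' ∩ t i) := ⟨z, hz, hfz⟩
      rw [indicator_of_mem hvi', hone]
      simp
    · have hzero : {w | w ∈ S' ∩ t i ∧ f w = v} = ∅ := by
        ext w
        simp only [mem_ofPred_eq, mem_empty_iff_false, iff_false]
        rintro ⟨hw, hfw⟩
        exact hvi ⟨w, hw, hfw⟩
      rw [indicator_of_notMem hvi, hzero]
      simp
  · intro i j hij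
    refine (hdisj hij).mono ?_ ?_ <;> exact fun z hz => hz.1

end Pool.Agent.Helper8.KP
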