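import Pool.Agent.Helper52.KP.StL

/-!
# Project KP, module WEY: the Weyl lemma for `∂̄`
-/

set_option autoImplicit false

namespace Pool.Agent.Helper8.KP

open MeasureTheory Filter Metric
open scoped ContDiff ComplexOrder Topology
open Pool.Agent.Helper52.KP

theorem norm_fderiv_le_of_ball {m : ℕ} {D : (Fin m → ℂ) → ℂ} {z : Fin m → ℂ} {r ε : ℝ}
    (hr : 0 < r) (hε : 0 ≤ ε) (hD : DifferentiableOn ℂ D (ball z r))
    (hb : ∀ x ∈ ball z r, ‖D x‖ ≤ ε) : ‖fderiv ℂ D z‖ ≤ 2 * ε / r := by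
  refine ContinuousLinearMap.opNorm_le_bound _ (by positivity) fun v => ?_
  rcases eq_or_ne v 0 with rfl | hv
  · simp
  have hv' : 0 < ‖v‖ := norm_pos_iff.2 hv
  set g : ℂ → ℂ := fun s => D (z + s • v) with hg
  have hmem : ∀ s : ℂ, s ∈ ball (0 : ℂ) (r / ‖v‖) → z + s • v ∈ ball z r := by
    intro s hs
    rw [mem_ball_zero_iff] at hs
    rw [mem_ball, dist_eq_norm]
    have : ‖z + s • v - z‖ = ‖s‖ * ‖v‖ := by
      rw [add_sub_cancel_left, norm_smul]
    rw [this]
    exact (lt_div_iff₀ hv').1 hs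
  have hgd : DifferentiableOn ℂ g (ball (0 : ℂ) (r / ‖v‖)) := by
    refine hD.comp ?_ hmem
    exact ((differentiable_const z).add (differentiable_id.smul_const v)).differentiableOn
  have hR : 0 < r / (2 * ‖v‖) := by positivity
  have hRlt : r / (2 * ‖v‖) < r / ‖v‖ := by
    apply div_lt_div_of_pos_left hr hv'
    linarith
  have hcl : DiffContOnCl ℂ g (ball (0 : ℂ) (r / (2 * ‖v‖))) :=
    hgd.diffContOnCl_ball (closedBall_subset_ball hRlt)
  have hCau : ‖deriv g 0‖ ≤ ε / (r / (2 * ‖v‖)) := by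
    refine Complex.norm_deriv_le_of_forall_mem_sphere_norm_le hR hcl fun s hs => ?_
    apply hb
    apply hmem
    exact (sphere_subset_closedBall.trans (closedBall_subset_ball hRlt)) hs
  have hder : deriv g 0 = fderiv ℂ D z v := by
    have h1 : HasFDerivAt D (fderiv ℂ D z) (z + (0 : ℂ) • v) := by
      rw [zero_smul, add_zero]
      exact ((hD z (mem_ball_self hr)).differentiableAt (isOpen_ball.mem_nhds (mem_ball_self hr))).hasFDerivAt
    have h2 : HasDerivAt (fun s : ℂ => z + s • v) v 0 := by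
      simpa using ((hasDerivAt_id (0 : ℂ)).smul_const v).const_add z
    exact (h1.comp_hasDerivAt (0 : ℂ) h2).deriv
  rw [← hder]
  refine hCau.trans (le_of_eq ?_)
  field_simp

theorem weierstrass {m : ℕ} {F : ℕ → (Fin m → ℂ) → ℂ} {z₀ : Fin m → ℂ} {r : ℝ} (hr : 0 < r)
    (hF : ∀ i, DifferentiableOn ℂ (F i) (ball z₀ (2 * r)))
    (hC : UniformCauchySeqOn F atTop (ball z₀ (2 * r))) :
    ∃ h : (Fin m → ℂ) → ℂ, DifferentiableOn ℂ h (ball z₀ r) ∧
      TendstoUniformlyOn F h atTop (ball z₀ r) := by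
  have hsub : ball z₀ r ⊆ ball z₀ (2 * r) := ball_subset_ball (by linarith)
  have hlim : ∀ z ∈ ball z₀ r, ∃ l, Tendsto (fun i => F i z) atTop (𝓝 l) := fun z hz =>
    cauchySeq_tendsto_of_complete (hC.cauchySeq (hsub hz))
  choose! h hh using hlim
  have hder : UniformCauchySeqOn (fun i z => fderiv ℂ (F i) z) atTop (ball z₀ r) := by
    rw [Metric.uniformCauchySeqOn_iff] at hC ⊢
    intro ε hε
    obtain ⟨N, hN⟩ := hC (ε * r / 4) (by positivity)
    refine ⟨N, fun p hp q hq z hz => ?_⟩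
    have hzr : ball z r ⊆ ball z₀ (2 * r) := by
      intro x hx
      rw [mem_ball] at hx hz ⊢
      linarith [dist_triangle x z z₀]
    have hdp := (hF p).mono hzr
    have hdq := (hF q).mono hzr
    have hzz : z ∈ ball z r := mem_ball_self hr
    have h1 : ‖fderiv ℂ (fun x => F p x - F q x) z‖ ≤ 2 * (ε * r / 4) / r := by
      refine norm_fderiv_le_of_ball hr (by positivity) (hdp.sub hdq) fun x hx => ?_
      have := hN p hp q hq x (hzr hx)
      rw [dist_eq_norm] at this
      exact this.le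
    have h2 : fderiv ℂ (fun x => F p x - F q x) z = fderiv ℂ (F p) z - fderiv ℂ (F q) z :=
      fderiv_fun_sub ((hdp z hzz).differentiableAt (isOpen_ball.mem_nhds hzz))
        ((hdq z hzz).differentiableAt (isOpen_ball.mem_nhds hzz))
    rw [dist_eq_norm, ← h2]
    refine lt_of_le_of_lt h1 ?_
    have : 2 * (ε * r / 4) / r = ε / 2 := by field_simp; ring
    rw [this]
    linarith
  have hlim' : ∀ z ∈ ball z₀ r, ∃ l, Tendsto (fun i => fderiv ℂ (F i) z) atTop (𝓝 l) :=
    fun z hz => cauchySeq_tendsto_of_complete (hder.cauchySeq hz)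
  choose! h' hh' using hlim'
  have hu' : TendstoUniformlyOn (fun i z => fderiv ℂ (F i) z) h' atTop (ball z₀ r) :=
    hder.tendstoUniformlyOn_of_tendsto hh'
  refine ⟨h, fun z hz => ?_, (hC.mono hsub).tendstoUniformlyOn_of_tendsto hh⟩
  have := hasFDerivAt_of_tendstoUniformlyOn (𝕜 := ℂ) isOpen_ball hu'
    (fun n x hx => ((hF n x (hsub hx)).differentiableAt
      (isOpen_ball.mem_nhds (hsub hx))).hasFDerivAt) hh hz
  exact this.differentiableAt.differentiableWithinAt

theorem hol_mollify (hCAL : StCAL) (hMO1 : StMO1) {m : ℕ} {U : Set (Fin m → ℂ)}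
    {f : (Fin m → ℂ) → ℂ} (hWD : ∀ k, WD U k f (fun _ => 0))
    {φ : ℕ → (Fin m → ℂ) → ℝ} (hφ : Mol φ) {V : Set (Fin m → ℂ)} (hVU : V ⊆ U)
    (hg : LocallyIntegrable (V.indicator f) volume) {i : ℕ} {z : Fin m → ℂ}
    (hz : closedBall z (1 / ((i : ℝ) + 1)) ⊆ V) :
    DifferentiableAt ℂ (cv (φ i) (V.indicator f)) z := by
  rcases Nat.eq_zero_or_pos m with rfl | hm
  · exact (hasFDerivAt_of_subsingleton _ _).differentiableAt
  obtain ⟨hsm, -, hd⟩ := hMO1 m φ hφ _ hg i
  have k₀ : Fin m := ⟨0, hm⟩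
  have hR : DifferentiableAt ℝ (cv (φ i) (V.indicator f)) z :=
    (hsm.differentiable (by simp)) z
  refine ((hCAL m k₀ k₀ _ (fun _ => 0) z).2.1 hR).2 fun k => ?_
  obtain ⟨-, h1, -, h2⟩ := hd k z
  rw [h1]
  set θ : (Fin m → ℂ) → ℂ := fun y => (φ i (z - y) : ℂ) with hθ
  have hsupp : Function.support θ ⊆ closedBall z (1 / ((i : ℝ) + 1)) := by
    intro x hx
    by_contra hcon
    rw [mem_closedBall, dist_comm, dist_eq_norm, not_le] at hcon
    apply hx
    simp only [hθ]
    rw [hφ.supp i _ hcon]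
    simp
  have htsupp : tsupport θ ⊆ closedBall z (1 / ((i : ℝ) + 1)) :=
    closure_minimal hsupp isClosed_closedBall
  have hzero : ∀ x, x ∉ V → db k θ x = 0 := by
    intro x hx
    have hx' : x ∉ tsupport θ := fun h => hx (hz (htsupp h))
    have : fderiv ℝ θ x = 0 := fderiv_of_notMem_tsupport (𝕜 := ℝ) hx'
    simp [db, this]
  have hθs : ContDiff ℝ ∞ θ :=
    Complex.ofRealCLM.contDiff.comp ((hφ.smooth i).comp (contDiff_const.sub contDiff_id))
  have htst : Tst U θ := ⟨hθs,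
    HasCompactSupport.of_support_subset_isCompact (isCompact_closedBall _ _) hsupp,
    (htsupp.trans hz).trans hVU⟩
  have hW := hWD k θ htst
  simp only [zero_mul, integral_zero, neg_zero] at hW
  rw [setIntegral_eq_integral_of_forall_compl_eq_zero
    (fun x hx => by rw [hzero x (fun h => hx (hVU h)), mul_zero])] at hW
  rw [← neg_eq_zero, ← integral_neg, ← hW]
  congr 1
  ext x
  have h2x := h2 x
  by_cases hx : x ∈ V
  · rw [Set.indicator_of_mem hx]
    have : db k θ x = - db k (cf (φ i)) (z - x) := h2x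
    rw [this]; ring
  · rw [Set.indicator_of_notMem hx, hzero x hx]; simp

/-- local version -/
theorem weyl_local (hSUP : StSUP) (hCAL : StCAL) (hMEX : StMEX) (hMO1 : StMO1) (hMO2 : StMO2)
    {m : ℕ} {U : Set (Fin m → ℂ)} (hU : IsOpen U) {f : (Fin m → ℂ) → ℂ}
    (hf : L2loc U f) (hWD : ∀ k, WD U k f (fun _ => 0)) {z₀ : Fin m → ℂ} (hz₀ : z₀ ∈ U) :
    ∃ r > 0, ∃ h : (Fin m → ℂ) → ℂ, ball z₀ r ⊆ U ∧ DifferentiableOn ℂ h (ball z₀ r) ∧
      f =ᵐ[volume.restrict (ball z₀ r)] h := by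
  obtain ⟨φ, hφ⟩ := hMEX m
  obtain ⟨ρ, hρ, hρU⟩ := Metric.nhds_basis_closedBall.mem_iff.1 (hU.mem_nhds hz₀)
  set r : ℝ := ρ / 4 with hrdef
  have hr : 0 < r := by positivity
  have hρr : ρ = 4 * r := by rw [hrdef]; ring
  rw [hρr] at hρU
  set V : Set (Fin m → ℂ) := closedBall z₀ (4 * r) with hV
  have hVm : MeasurableSet V := isClosed_closedBall.measurableSet
  have hVc : IsCompact V := isCompact_closedBall _ _
  have hfV : MemLp f 2 (volume.restrict V) := by
    rw [memLp_two_iff_integrable_sq_norm (hf.1.mono_measure (Measure.restrict_mono hρU le_rfl))]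
    exact hf.2 V hρU hVc
  set g : (Fin m → ℂ) → ℂ := V.indicator f with hgdef
  have hg : MemLp g 2 volume := (memLp_indicator_iff_restrict hVm).2 hfV
  have hgi : Integrable g volume := by
    rw [hgdef, integrable_indicator_iff hVm]
    have : IsFiniteMeasure (volume.restrict V) := ⟨by
      rw [Measure.restrict_apply_univ]; exact hVc.measure_lt_top⟩
    exact hfV.integrable (by norm_num)
  obtain ⟨n₀, hn₀⟩ : ∃ n₀ : ℕ, 1 / ((n₀ : ℝ) + 1) < r := exists_nat_one_div_lt hr
  obtain ⟨hL2, hconv⟩ := hMO2 m φ hφ g hg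
  set F : ℕ → (Fin m → ℂ) → ℂ := fun i => cv (φ (i + n₀)) g with hFdef
  have hFL2 : ∀ i, MemLp (F i) 2 volume := fun i => hL2 _
  have hFhol : ∀ i, DifferentiableOn ℂ (F i) (ball z₀ (3 * r)) := by
    intro i z hz
    have hi : 1 / (((i + n₀ : ℕ) : ℝ) + 1) < r := by
      refine lt_of_le_of_lt ?_ hn₀
      apply one_div_le_one_div_of_le (by positivity)
      push_cast
      linarith [(Nat.cast_nonneg i : (0 : ℝ) ≤ i)]
    refine (hol_mollify hCAL hMO1 hWD hφ hρU hgi.locallyIntegrable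
      (fun x hx => ?_)).differentiableWithinAt
    rw [mem_closedBall] at hx
    rw [hV, mem_closedBall]
    rw [mem_ball] at hz
    linarith [dist_triangle x z z₀]
  set N : ℕ → ℝ := fun i => ∫ z, ‖F i z - g z‖ ^ 2 with hN
  have hNlim : Tendsto N atTop (𝓝 0) := (tendsto_add_atTop_iff_nat n₀).2 hconv
  have hNint : ∀ i, Integrable (fun z => ‖F i z - g z‖ ^ 2) volume := fun i =>
    (memLp_two_iff_integrable_sq_norm ((hFL2 i).sub hg).1).1 ((hFL2 i).sub hg)
  have hpq : ∀ p q, Integrable (fun z => ‖F p z - F q z‖ ^ 2) volume := fun p q =>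
    (memLp_two_iff_integrable_sq_norm ((hFL2 p).sub (hFL2 q)).1).1 ((hFL2 p).sub (hFL2 q))
  have hpq2 : ∀ p q, ∫ z, ‖F p z - F q z‖ ^ 2 ≤ 2 * N p + 2 * N q := by
    intro p q
    rw [hN, ← integral_const_mul, ← integral_const_mul, ← integral_add]
    · apply integral_mono (hpq p q)
      · exact ((hNint p).const_mul 2).add ((hNint q).const_mul 2)
      · intro z
        simp only
        have h1 : ‖F p z - F q z‖ ≤ ‖F p z - g z‖ + ‖F q z - g z‖ := by
          have : F p z - F q z = (F p z - g z) - (F q z - g z) := by ring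
          rw [this]
          exact norm_sub_le _ _
        nlinarith [norm_nonneg (F p z - F q z), norm_nonneg (F p z - g z),
          norm_nonneg (F q z - g z), sq_nonneg (‖F p z - g z‖ - ‖F q z - g z‖)]
    · exact (hNint p).const_mul 2
    · exact (hNint q).const_mul 2
  have hc : 0 < (Real.pi * r ^ 2) ^ m := by positivity
  have hCau : UniformCauchySeqOn F atTop (ball z₀ (2 * r)) := by
    rw [Metric.uniformCauchySeqOn_iff]
    intro ε hε
    have hev : ∀ᶠ i in atTop, N i < (Real.pi * r ^ 2) ^ m * ε ^ 2 / 4 :=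
      hNlim.eventually_lt_const (by positivity)
    obtain ⟨M, hM⟩ := eventually_atTop.1 hev
    refine ⟨M, fun p hp q hq z hz => ?_⟩
    have hsub : ball z r ⊆ ball z₀ (3 * r) := by
      intro x hx
      rw [mem_ball] at hx hz ⊢
      linarith [dist_triangle x z z₀]
    have h1 := (hSUP m z r hr (fun x => F p x - F q x)
      (((hFhol p).mono hsub).sub ((hFhol q).mono hsub)) (hpq p q).integrableOn).2
    have h2 : ∫ x in ball z r, ‖F p x - F q x‖ ^ 2 ≤ ∫ x, ‖F p x - F q x‖ ^ 2 :=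
      setIntegral_le_integral (hpq p q) (Eventually.of_forall fun x => by positivity)
    have h3 := hpq2 p q
    have h4 := hM p hp
    have h5 := hM q hq
    have h6 : (Real.pi * r ^ 2) ^ m * ‖F p z - F q z‖ ^ 2 < (Real.pi * r ^ 2) ^ m * ε ^ 2 := by
      linarith
    have h7 : ‖F p z - F q z‖ ^ 2 < ε ^ 2 := lt_of_mul_lt_mul_left h6 hc.le
    rw [dist_eq_norm]
    exact lt_of_pow_lt_pow_left₀ 2 hε.le h7
  obtain ⟨h, hh, hunif⟩ := weierstrass hr
    (fun i => (hFhol i).mono (ball_subset_ball (by linarith))) hCau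
  have hBV : ball z₀ r ⊆ V := ball_subset_closedBall.trans (closedBall_subset_closedBall (by linarith))
  refine ⟨r, hr, h, hBV.trans hρU, hh, ?_⟩
  -- almost everywhere equality
  have hm : TendstoInMeasure volume (fun i z => ‖F i z - g z‖ ^ 2) atTop (fun _ => (0 : ℝ)) := by
    refine tendstoInMeasure_of_tendsto_eLpNorm (p := 1) one_ne_zero (fun i => (hNint i).1)
      aestronglyMeasurable_const ?_
    have h1 : ∀ i, eLpNorm ((fun z => ‖F i z - g z‖ ^ 2) - fun _ => (0 : ℝ)) 1 volume =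
        ENNReal.ofReal (N i) := by
      intro i
      rw [eLpNorm_one_eq_lintegral_enorm, hN,
        ofReal_integral_eq_lintegral_ofReal (hNint i)
          (Eventually.of_forall fun z => by positivity)]
      apply lintegral_congr
      intro z
      rw [Real.enorm_eq_ofReal] <;> simp
    simp only [h1]
    rw [← ENNReal.ofReal_zero]
    exact ENNReal.tendsto_ofReal hNlim
  obtain ⟨ns, hns, hae⟩ := hm.exists_seq_tendsto_ae
  have hBm : MeasurableSet (ball z₀ r) := isOpen_ball.measurableSet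
  rw [EventuallyEq, ae_restrict_iff' hBm]
  filter_upwards [hae] with z hz hzB
  have h1 : Tendsto (fun i => F (ns i) z) atTop (𝓝 (h z)) :=
    (hunif.tendsto_at hzB).comp hns.tendsto_atTop
  have h2 : Tendsto (fun i => F (ns i) z) atTop (𝓝 (g z)) := by
    rw [tendsto_iff_norm_sub_tendsto_zero]
    have := hz.sqrt
    simpa using this
  have h3 := tendsto_nhds_unique h2 h1
  rw [← h3, hgdef, Set.indicator_of_mem (hBV hzB)]

theorem hWEY (hSUP : StSUP) (hCAL : StCAL) (hMEX : StMEX) (hMO1 : StMO1) (hMO2 : StMO2) :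
    Pool.Agent.Helper52.KP.StWEY := by
  intro m U hU f hf hWD
  have hloc : ∀ z₀ ∈ U, ∃ (r : ℝ) (h : (Fin m → ℂ) → ℂ), 0 < r ∧ ball z₀ r ⊆ U ∧
      DifferentiableOn ℂ h (ball z₀ r) ∧ f =ᵐ[volume.restrict (ball z₀ r)] h := by
    intro z₀ hz₀
    obtain ⟨r, hr, h, h1, h2, h3⟩ := weyl_local hSUP hCAL hMEX hMO1 hMO2 hU hf hWD hz₀
    exact ⟨r, h, hr, h1, h2, h3⟩
  choose! r h hr hsub hd hae using hloc
  have key : ∀ z₀ ∈ U, ∀ z ∈ ball z₀ (r z₀), h z z = h z₀ z := by
    intro z₀ hz₀ z hz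
    have hzU : z ∈ U := hsub z₀ hz₀ hz
    set W : Set (Fin m → ℂ) := ball z₀ (r z₀) ∩ ball z (r z) with hW
    have hWo : IsOpen W := isOpen_ball.inter isOpen_ball
    have e1 : f =ᵐ[volume.restrict W] h z₀ :=
      ae_restrict_of_ae_restrict_of_subset Set.inter_subset_left (hae z₀ hz₀)
    have e2 : f =ᵐ[volume.restrict W] h z :=
      ae_restrict_of_ae_restrict_of_subset Set.inter_subset_right (hae z hzU)
    have e3 := Measure.eqOn_open_of_ae_eq (e2.symm.trans e1) hWo
      ((hd z hzU).continuousOn.mono Set.inter_subset_right)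
      ((hd z₀ hz₀).continuousOn.mono Set.inter_subset_left)
    exact e3 ⟨hz, mem_ball_self (hr z hzU)⟩
  refine ⟨fun z => h z z, fun z₀ hz₀ => ?_, ?_⟩
  · have hnh : ball z₀ (r z₀) ∈ 𝓝 z₀ := ball_mem_nhds _ (hr z₀ hz₀)
    have h1 : DifferentiableAt ℂ (h z₀) z₀ := (hd z₀ hz₀).differentiableAt hnh
    refine (h1.congr_of_eventuallyEq ?_).differentiableWithinAt
    filter_upwards [hnh] with z hz using key z₀ hz₀ z hz
  · rw [EventuallyEq, ae_restrict_iff' hU.measurableSet]
    rw [ae_iff]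
    refine measure_null_of_locally_null _ fun z₀ hz₀ => ?_
    have hz₀U : z₀ ∈ U := by
      by_contra hcon
      exact hz₀ fun h => absurd h hcon
    have hae' := hae z₀ hz₀U
    rw [EventuallyEq, ae_restrict_iff' isOpen_ball.measurableSet, ae_iff] at hae'
    refine ⟨{a | ¬ (a ∈ ball z₀ (r z₀) → f a = h z₀ a)}, ?_, hae'⟩
    rw [mem_nhdsWithin]
    refine ⟨ball z₀ (r z₀), isOpen_ball, mem_ball_self (hr z₀ hz₀U), ?_⟩
    rintro a ⟨ha, ha'⟩ hcon
    apply ha'
    intro _
    rw [key z₀ hz₀U a ha]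
    exact hcon ha

end Pool.Agent.Helper8.KP
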