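import Pool.Agent.Helper52.KP.StF

/-!
# Project KP, module HPO: functions on the orbit are polynomials in the chart
-/

set_option autoImplicit false

namespace Pool.Agent.Helper8.KP

open Pool.Agent.Helper52.KP Pool.Agent.Helper67.NO MeasureTheory Filter
open scoped ContDiff ComplexOrder Topology

universe u

private theorem differentiable_eval {m : ℕ} (P : MvPolynomial (Fin m) ℂ) :
    Differentiable ℂ fun z : Fin m → ℂ => MvPolynomial.eval z P := by
  induction P using MvPolynomial.induction_on with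
  | C a => simp
  | add p q hp hq =>
    simp only [map_add]
    exact hp.add hq
  | mul_X p i hp =>
    simp only [map_mul, MvPolynomial.eval_X]
    exact hp.mul (differentiable_apply i)

private theorem growth_eval {m : ℕ} (P : MvPolynomial (Fin m) ℂ) :
    ∃ (B : ℝ) (N : ℕ), 0 ≤ B ∧ ∀ z : Fin m → ℂ, ‖MvPolynomial.eval z P‖ ≤ B * (1 + ‖z‖) ^ N := by
  induction P using MvPolynomial.induction_on with
  | C a => exact ⟨‖a‖, 0, norm_nonneg _, fun z => by simp⟩
  | add p q hp hq =>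
    obtain ⟨B, N, hB, h⟩ := hp
    obtain ⟨B', N', hB', h'⟩ := hq
    refine ⟨B + B', N + N', by positivity, fun z => ?_⟩
    have h1 : (1 : ℝ) ≤ 1 + ‖z‖ := by linarith [norm_nonneg z]
    have e1 : (1 + ‖z‖) ^ N ≤ (1 + ‖z‖) ^ (N + N') := pow_le_pow_right₀ h1 (by omega)
    have e2 : (1 + ‖z‖) ^ N' ≤ (1 + ‖z‖) ^ (N + N') := pow_le_pow_right₀ h1 (by omega)
    rw [map_add]
    calc ‖MvPolynomial.eval z p + MvPolynomial.eval z q‖
        ≤ ‖MvPolynomial.eval z p‖ + ‖MvPolynomial.eval z q‖ := norm_add_le _ _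
      _ ≤ B * (1 + ‖z‖) ^ N + B' * (1 + ‖z‖) ^ N' := add_le_add (h z) (h' z)
      _ ≤ B * (1 + ‖z‖) ^ (N + N') + B' * (1 + ‖z‖) ^ (N + N') :=
        add_le_add (mul_le_mul_of_nonneg_left e1 hB) (mul_le_mul_of_nonneg_left e2 hB')
      _ = (B + B') * (1 + ‖z‖) ^ (N + N') := by ring
  | mul_X p i hp =>
    obtain ⟨B, N, hB, h⟩ := hp
    refine ⟨B, N + 1, hB, fun z => ?_⟩
    have h1 : ‖z i‖ ≤ 1 + ‖z‖ := (norm_le_pi_norm z i).trans (by linarith)
    rw [map_mul, MvPolynomial.eval_X, norm_mul, pow_succ, ← mul_assoc]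
    exact mul_le_mul (h z) h1 (norm_nonneg _) (by positivity)

private theorem exists_ne_zero {m : ℕ} {P : MvPolynomial (Fin m) ℂ} (hP : P ≠ 0)
    {V : Set (Fin m → ℂ)} (hV : IsOpen V) (hne : V.Nonempty) :
    ∃ w ∈ V, MvPolynomial.eval w P ≠ 0 := by
  by_contra hcon
  push Not at hcon
  apply hP
  obtain ⟨w₀, hw₀⟩ := hne
  obtain ⟨r, hr, hrV⟩ := Metric.isOpen_iff.1 hV w₀ hw₀
  apply MvPolynomial.funext_set (fun i => Metric.ball (w₀ i) r)
  · intro i
    exact infinite_of_mem_nhds (w₀ i) (Metric.ball_mem_nhds _ hr)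
  · intro x hx
    rw [map_zero]
    apply hcon
    apply hrV
    rw [ball_pi _ hr]
    exact hx

theorem hHPO (hHLC : StHLC.{u}) (hEXT : StEXT) (hPOG : StPOG) :
    Pool.Agent.Helper52.KP.StHPO.{u} := by
  intro g _ _ _ _ x₀ hx₀ hnil C k f hf hB
  obtain ⟨B, hB⟩ := hB
  set U : Set (Fin C.m → ℂ) := {z | MvPolynomial.eval z C.Δ ≠ 0} with hUdef
  have hUo : IsOpen U := (isClosed_singleton (x := (0 : ℂ))).isOpen_compl.preimage
    (differentiable_eval C.Δ).continuous
  have hdense : Dense U := by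
    rw [dense_iff_inter_open]
    intro V hV hne
    obtain ⟨w, hw, hw'⟩ := exists_ne_zero C.Δ0 hV hne
    exact ⟨w, hw, hw'⟩
  set s : (Fin C.m → ℂ) → ℝ := fun z => ∑ i, ‖MvPolynomial.eval z (C.pol i)‖ with hs
  have hsc : Continuous s :=
    continuous_finsetSum _ fun i _ => (differentiable_eval (C.pol i)).continuous.norm
  have hs0 : ∀ z, 0 ≤ s z := fun z => Finset.sum_nonneg fun i _ => norm_nonneg _
  have hsize : ∀ z, size (C.Φ z) = s z := by
    intro z
    rw [hs]
    refine Finset.sum_congr rfl fun i _ => ?_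
    rw [← C.pol_spec i z]
    rfl
  set F₀ : (Fin C.m → ℂ) → ℂ := fun z => ext f (C.Φ z) with hF₀
  have hΦ : HolMap U C.Φ := by
    have : Differentiable ℂ (fun z => co (C.Φ z)) := by
      rw [differentiable_pi]
      intro i
      have e : (fun z => co (C.Φ z) i) = fun z => MvPolynomial.eval z (C.pol i) := by
        ext z; exact C.pol_spec i z
      rw [e]
      exact differentiable_eval _
    exact this.differentiableOn
  have hF₀d : DifferentiableOn ℂ F₀ U := hHLC g x₀ hx₀ hnil C.m U hUo C.Φ hΦ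
    (fun z hz => C.orb z hz) k f hf
  have hF₀b : ∀ z ∈ U, ‖F₀ z‖ ≤ B * s z ^ k := by
    intro z hz
    have h1 := hB ⟨C.Φ z, C.orb z hz⟩
    rw [hF₀]
    simp only
    rw [ext, dif_pos (C.orb z hz), ← hsize]
    exact h1
  obtain ⟨F, hFd, hF⟩ := hEXT C.m Set.univ isOpen_univ (fun z => MvPolynomial.eval z C.Δ) F₀
    (differentiable_eval C.Δ).differentiableOn
    (fun V _ hV hne => exists_ne_zero C.Δ0 hV hne)
    (hF₀d.mono fun z hz => hz.2) (by
      intro w₀ _
      refine ⟨Metric.ball w₀ 1, Metric.isOpen_ball, Metric.mem_ball_self one_pos, ?_⟩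
      have hset : {w | w ∈ Metric.ball w₀ 1 ∧ w ∈ Set.univ ∧ MvPolynomial.eval w C.Δ ≠ 0} =
          Metric.ball w₀ 1 ∩ U := by
        ext w; simp [hUdef]
      rw [hset]
      have hm : MeasurableSet (Metric.ball w₀ 1 ∩ U) :=
        Metric.isOpen_ball.measurableSet.inter hUo.measurableSet
      obtain ⟨M, hM⟩ := (isCompact_closedBall w₀ (1 : ℝ)).exists_bound_of_continuousOn
        (f := fun z => B * s z ^ k) (by fun_prop)
      have hfin : IsFiniteMeasure (volume.restrict (Metric.ball w₀ 1 ∩ U)) := ⟨by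
        rw [Measure.restrict_apply_univ]
        exact (measure_mono Set.inter_subset_left).trans_lt measure_ball_lt_top⟩
      refine Integrable.mono' (g := fun _ => M ^ 2) (integrable_const _) ?_ ?_
      · exact ((hF₀d.continuousOn.mono Set.inter_subset_right).norm.pow 2).aestronglyMeasurable hm
      · filter_upwards [ae_restrict_mem hm] with z hz
        have h1 := hF₀b z hz.2
        have h2 := hM z (Metric.ball_subset_closedBall hz.1)
        have h3 : ‖F₀ z‖ ≤ M := h1.trans ((le_abs_self _).trans h2)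
        rw [Real.norm_of_nonneg (by positivity)]
        exact pow_le_pow_left₀ (norm_nonneg _) h3 2)
  have hFd' : Differentiable ℂ F := differentiableOn_univ.1 hFd
  have hFb : ∀ z, ‖F z‖ ≤ B * s z ^ k := by
    have hcl : IsClosed {z | ‖F z‖ ≤ B * s z ^ k} :=
      isClosed_le hFd'.continuous.norm (by fun_prop)
    have hsub : U ⊆ {z | ‖F z‖ ≤ B * s z ^ k} := by
      intro z hz
      show ‖F z‖ ≤ B * s z ^ k
      rw [hF z (Set.mem_univ _) hz]
      exact hF₀b z hz
    intro z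
    have := hcl.closure_subset_iff.2 hsub (hdense z)
    exact this
  have hgs : ∃ (D : ℝ) (N : ℕ), 0 ≤ D ∧ ∀ z, s z ≤ D * (1 + ‖z‖) ^ N := by
    have key : ∀ S : Finset (Fin (Module.finrank ℂ g)), ∃ (D : ℝ) (N : ℕ), 0 ≤ D ∧
        ∀ z, ∑ i ∈ S, ‖MvPolynomial.eval z (C.pol i)‖ ≤ D * (1 + ‖z‖) ^ N := by
      intro S
      induction S using Finset.induction_on with
      | empty => exact ⟨0, 0, le_rfl, fun z => by simp⟩
      | insert a S ha ih =>
        obtain ⟨D, N, hD, h⟩ := ih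
        obtain ⟨D', N', hD', h'⟩ := growth_eval (C.pol a)
        refine ⟨D' + D, N' + N, by positivity, fun z => ?_⟩
        have h1 : (1 : ℝ) ≤ 1 + ‖z‖ := by linarith [norm_nonneg z]
        have e1 : (1 + ‖z‖) ^ N ≤ (1 + ‖z‖) ^ (N' + N) := pow_le_pow_right₀ h1 (by omega)
        have e2 : (1 + ‖z‖) ^ N' ≤ (1 + ‖z‖) ^ (N' + N) := pow_le_pow_right₀ h1 (by omega)
        rw [Finset.sum_insert ha]
        have e3 := h z
        have e4 := h' z
        have e5 := mul_le_mul_of_nonneg_left e1 hD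
        have e6 := mul_le_mul_of_nonneg_left e2 hD'
        linarith
    exact key Finset.univ
  obtain ⟨D, N, hD, hDN⟩ := hgs
  obtain ⟨P, hP⟩ := hPOG C.m F hFd' ⟨|B| * D ^ k, N * k, fun z => by
    have h1 : s z ^ k ≤ (D * (1 + ‖z‖) ^ N) ^ k := pow_le_pow_left₀ (hs0 z) (hDN z) k
    calc ‖F z‖ ≤ B * s z ^ k := hFb z
      _ ≤ |B| * s z ^ k := mul_le_mul_of_nonneg_right (le_abs_self _) (pow_nonneg (hs0 z) k)
      _ ≤ |B| * (D * (1 + ‖z‖) ^ N) ^ k := mul_le_mul_of_nonneg_left h1 (abs_nonneg _)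
      _ = |B| * D ^ k * (1 + ‖z‖) ^ (N * k) := by rw [mul_pow, pow_mul]; ring⟩
  refine ⟨P, fun z hz => ?_, B, fun z => ?_⟩
  · rw [← hP]
    exact hF z (Set.mem_univ _) hz
  · rw [← hP]
    exact hFb z

end Pool.Agent.Helper8.KP
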