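import Pool.Agent.Helper93.KP.St

/-!
# Project KP (MP_77e955_nt): module CAP, EXC for families of weights
-/

set_option autoImplicit false

noncomputable section

namespace Pool.Agent.Helper8.KP

open Finset Filter Topology Pool.Agent.Helper93.KP
open Pool.Agent.Helper15.AB (ee Kl StDB StMT)
open Pool.Agent.Helper9.TW (iv bx Rg cc Dec WF bm ms ind UpP LoP gm Ax GUp GLo Qs fm ej Sp Pr
  StFOU StMER StMSB StINQ StWFJ StPOS StC5 StC6 StC9 StAX StD1 StD2 StD3 StD4)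

private theorem Sp_Rg {a j0 j : ℕ} {ω : ℝ} (ha : 1 ≤ a) (hω : 0 < ω) {m : ℕ} (h : Sp a ω j0 j m) :
    Rg a ((a : ℝ) ^ ((j0 : ℝ) * ω)) m := by
  refine ⟨h.1, fun p hp hpm => ?_⟩
  have h1 := h.2 p hp hpm
  unfold Pr at h1
  rw [mem_biUnion] at h1
  obtain ⟨i, hi, hpi⟩ := h1
  rw [mem_Ico] at hi
  unfold bx at hpi
  rw [mem_filter] at hpi
  refine ⟨le_trans ?_ hpi.2.2.1, hpi.2.2.2⟩
  refine Real.rpow_le_rpow_of_exponent_le (by exact_mod_cast ha) ?_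
  have h2 : (j0 : ℝ) ≤ i := by exact_mod_cast hi.1
  exact mul_le_mul_of_nonneg_right h2 hω.le

private theorem Dec_mono {P Q : ℕ → Prop} {M N B : ℝ} {T : ℕ} {l : ℕ → ℝ} (hPQ : ∀ m, P m → Q m)
    (h : Dec P M N T B l) : Dec Q M N T B l := by
  obtain ⟨al, be, h1, h2, h3, h4⟩ := h
  exact ⟨al, be, h1, fun t m hm => ⟨hPQ m (h2 t m hm).1, (h2 t m hm).2⟩,
    fun t m hm => ⟨hPQ m (h3 t m hm).1, (h3 t m hm).2⟩, h4⟩

private theorem vk_pos {a n j : ℕ} {κ₀ z : ℝ} (ha : 900 ≤ a) (hκ : κ₀ ≤ 1 / 2) (hn : n ∈ NN a)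
    (hj : j ∈ Jn z ⌊(a : ℝ) ^ κ₀⌋₊ n) : 1 ≤ vk n (30 * j) := by
  classical
  have haR : (900 : ℝ) ≤ a := by exact_mod_cast ha
  have ha0 : (0 : ℝ) ≤ a := by linarith
  unfold Jn at hj
  rw [mem_filter, mem_Icc] at hj
  unfold NN at hn
  rw [mem_Ioc] at hn
  have h1 : (j : ℝ) ≤ (a : ℝ) ^ κ₀ :=
    le_trans (by exact_mod_cast hj.1.2) (Nat.floor_le (Real.rpow_nonneg ha0 _))
  have h2 : (a : ℝ) ^ κ₀ ≤ (a : ℝ) ^ (1 / 2 : ℝ) :=
    Real.rpow_le_rpow_of_exponent_le (by linarith) hκ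
  rw [← Real.sqrt_eq_rpow] at h2
  have h3 : (30 : ℝ) ≤ √(a : ℝ) := by
    rw [Real.le_sqrt (by norm_num) ha0]
    norm_num
    exact ha
  have h4 : √(a : ℝ) * √(a : ℝ) = a := Real.mul_self_sqrt ha0
  have h5 : 30 * (j : ℝ) ≤ a := by nlinarith
  have h6 : 30 * j ≤ a := by exact_mod_cast h5
  have h7 : a ≤ a ^ 2 := by nlinarith
  have h8 : 1 ≤ n - 30 * j := by omega
  have h9 : 30 * j * 1 ≤ 30 * j * (n - 30 * j) := Nat.mul_le_mul le_rfl h8
  have h10 := hj.1.1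
  unfold vk
  omega

theorem hCAP (hE : StEXC) (hJ : StWFJ) (hMB : StMSB) (hI : StINQ) : StCAP := by
  intro f κ₀ hκ0 hκ1
  obtain ⟨θ₁, hθ₁, -, H7⟩ := hE (1 / 10000) f (by norm_num) (by norm_num)
  refine ⟨θ₁, hθ₁, fun u j0 hu hj0 hj0u hθ => ?_⟩
  have hu0 : (1 : ℝ) ≤ u := by exact_mod_cast hu
  have hj00 : (1 : ℝ) ≤ j0 := by exact_mod_cast hj0
  have hω : (0 : ℝ) < 1 / (20000 * (u : ℝ)) := by positivity
  obtain ⟨κ, hκ, H7'⟩ := H7 ((j0 : ℝ) * (1 / (20000 * u))) (by positivity) hθ κ₀ hκ0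
    (hκ1.trans (by norm_num))
  refine ⟨κ, hκ, fun T B Lam hW => ?_, fun T B Lam j hj1 hj2 hW => ?_⟩
  · obtain ⟨a₀, H⟩ := H7' T B
    filter_upwards [hW, eventually_ge_atTop (max a₀ 2)] with a hWa ha i
    have ha1 : a₀ ≤ a := le_trans (le_max_left _ _) ha
    have ha2 : 2 ≤ a := le_trans (le_max_right _ _) ha
    have haR : (2 : ℝ) ≤ a := by exact_mod_cast ha2
    have ha0 : (0 : ℝ) < a := by linarith
    refine H i a (Lam a) ha1 ?_
    refine Dec_mono (fun m hm => Sp_Rg (by omega) hω hm) (hWa _ _ ?_ ?_ ?_)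
    · exact Real.one_le_rpow (by linarith) (by norm_num)
    · exact Real.one_le_rpow (by linarith) (by norm_num)
    · rw [← Real.rpow_add ha0]
      congr 1
      push_cast
      field_simp
      norm_num
  · obtain ⟨a₀, H⟩ := H7' T B
    filter_upwards [hW, eventually_ge_atTop (max a₀ 900)] with a hWa ha i
    have ha1 : a₀ ≤ a := le_trans (le_max_left _ _) ha
    have ha9 : 900 ≤ a := le_trans (le_max_right _ _) ha
    have ha2 : 2 ≤ a := by omega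
    have haR : (2 : ℝ) ≤ a := by exact_mod_cast ha2
    have ha0 : (0 : ℝ) < a := by linarith
    have hM1 : (1 : ℝ) ≤ (a : ℝ) ^ ((1 : ℝ) - 1 / 10000) :=
      Real.one_le_rpow (by linarith) (by norm_num)
    have hN1 : (1 : ℝ) ≤ (a : ℝ) ^ ((1 : ℝ) / 10 - 1 / 10000) :=
      Real.one_le_rpow (by linarith) (by norm_num)
    obtain ⟨x, hx⟩ : ∃ x : ℝ, x = ((21996 * u - (j + 1) : ℕ) : ℝ) * (1 / (20000 * u)) := ⟨_, rfl⟩
    have hx0 : 0 ≤ x := by rw [hx]; positivity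
    rw [← hx] at hWa
    have hxe : x + ((j : ℝ) + 1) * (1 / (20000 * u)) = 10998 / 10000 := by
      rw [hx, Nat.cast_sub (by omega)]
      push_cast
      field_simp
      ring
    have hB0 : 0 ≤ B := by
      obtain ⟨al, be, h1, _⟩ := hWa ((a : ℝ) ^ x) 1
        (Real.one_le_rpow (by linarith) hx0) le_rfl (mul_one _)
      exact le_trans (abs_nonneg _) (h1 0 0).1
    have hjM : (a : ℝ) ^ (((j : ℝ) + 1) * (1 / (20000 * u))) ≤ (a : ℝ) ^ ((1 : ℝ) - 1 / 10000) := by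
      refine Real.rpow_le_rpow_of_exponent_le (by linarith) ?_
      have h2 : (j : ℝ) + 1 ≤ 19998 * u := by
        have h3 : j + 1 ≤ 19998 * u := by omega
        exact_mod_cast h3
      have h3 : (1 : ℝ) - 1 / 10000 = (19998 * u) * (1 / (20000 * u)) := by
        field_simp
        norm_num
      rw [h3]
      exact mul_le_mul_of_nonneg_right h2 hω.le
    have hMN : (a : ℝ) ^ ((1 : ℝ) - 1 / 10000) * (a : ℝ) ^ ((1 : ℝ) / 10 - 1 / 10000) =
        (a : ℝ) ^ (x + ((j : ℝ) + 1) * (1 / (20000 * u))) := by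
      rw [← Real.rpow_add ha0, hxe]
      congr 1
      norm_num
    have hD := hJ a j0 (5499 * u) j (1 / (20000 * u)) x _ _ T B (Lam a) (by omega) hω hj0u hj1 hB0
      hN1 hjM hMN hWa
    obtain ⟨E, hEc, h8⟩ := H i a (bm a (1 / (20000 * u)) j (Lam a)) ha1 hD
    refine ⟨E, hEc, fun n hn hnE => ?_⟩
    have h8' := h8 n hn hnE
    rw [hMB a j0 (5499 * u) j (1 / (20000 * u)) x T B (Lam a) (by omega) hω hx0
      (by rw [hxe]; norm_num) hWa] at h8'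
    have h9 : ∑ j' ∈ Jn ((a : ℝ) ^ ((j0 : ℝ) * (1 / (20000 * u)))) ⌊(a : ℝ) ^ κ₀⌋₊ n,
        tk i a ((j0 : ℝ) * (1 / (20000 * u))) f n (30 * j') *
          ∑ q ∈ (vk n (30 * j')).divisors, bm a (1 / (20000 * u)) j (Lam a) q =
        ∑ j' ∈ Jn ((a : ℝ) ^ ((j0 : ℝ) * (1 / (20000 * u)))) ⌊(a : ℝ) ^ κ₀⌋₊ n,
        tk i a ((j0 : ℝ) * (1 / (20000 * u))) f n (30 * j') *
          ((ej a (1 / (20000 * u)) j (vk n (30 * j')) : ℝ) *
            ∑ q ∈ (vk n (30 * j')).divisors, Lam a q) := by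
      refine Finset.sum_congr rfl fun j' hj' => ?_
      rw [(hI a j0 (5499 * u) j (1 / (20000 * u)) x T B (Lam a) (vk n (30 * j')) ha2 hω hx0 hj1
        (vk_pos ha9 (hκ1.trans (by norm_num)) hn hj') hWa).1]
    rw [h9] at h8'
    exact h8'

end Pool.Agent.Helper8.KP
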