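import Pool.Agent.Helper20.KP.StHB

/-!
# Project KP, module HB8: holomorphic homogeneous functions on the orbit are regular
-/

set_option autoImplicit false

namespace Pool.Agent.Helper8.KP

open MeasureTheory Filter Pool.Agent.Helper52.KP Pool.Agent.Helper67.NO Pool.Agent.Helper20.KP
open scoped Topology

universe u

private theorem differentiable_eval' {m : ℕ} (P : MvPolynomial (Fin m) ℂ) :
    Differentiable ℂ fun z : Fin m → ℂ => MvPolynomial.eval z P := by
  induction P using MvPolynomial.induction_on with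
  | C a => simp
  | add p q hp hq =>
    simp only [map_add]
    exact hp.add hq
  | mul_X p i hp =>
    simp only [map_mul, MvPolynomial.eval_X]
    exact hp.mul (differentiable_apply i)

theorem hHB8 (hHGO : StHGO.{u}) (hHRG : StHRG) (hHB5 : StHB5.{u}) (hORB : StORB.{u}) :
    Pool.Agent.Helper20.KP.StHB8.{u} := by
  intro g _ _ _ _ x₀ hx₀ hnil C k
  obtain ⟨-, -, -, hchart, -⟩ := hORB g
  apply le_antisymm
  · intro f hf
    obtain ⟨h1, h2, h3⟩ := (hHB5 g x₀ hx₀ hnil C k).1 f hf
    refine ⟨fun x => ?_, hf.2⟩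
    obtain ⟨p, q, hq, hpq⟩ := hHRG (mkOD C) (hHGO g x₀ hx₀ hnil C) k (tf f) h1 h2 (co x.1)
      ⟨x.1, x.2, rfl⟩
    refine ⟨p, q, hq, fun y => ?_⟩
    have := hpq (co y.1) ⟨y.1, y.2, rfl⟩
    rw [h3 y] at this
    exact this
  · intro f hf
    refine ⟨fun x j X w₀ => ?_, hf.2⟩
    obtain ⟨p, q, hq, hpq⟩ := hf.1 ⟨chart x.1 X w₀, Orb.step _ _ x.2⟩
    have hc : Differentiable ℂ (fun w => co (chart x.1 X w)) :=
      differentiableOn_univ.1 (hchart j x.1 X).1
    have hpd : Differentiable ℂ (fun w => pev p (chart x.1 X w)) :=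
      (differentiable_eval' p).comp hc
    have hqd : Differentiable ℂ (fun w => pev q (chart x.1 X w)) :=
      (differentiable_eval' q).comp hc
    have hq' : pev q (chart x.1 X w₀) ≠ 0 := hq
    have hne : ∀ᶠ w in 𝓝 w₀, pev q (chart x.1 X w) ≠ 0 :=
      hqd.continuous.continuousAt.eventually_ne hq'
    have h1 : DifferentiableAt ℂ (fun w => pev p (chart x.1 X w) * (pev q (chart x.1 X w))⁻¹) w₀ :=
      (hpd w₀).mul ((hqd w₀).inv hq')
    refine h1.congr_of_eventuallyEq ?_
    filter_upwards [hne] with w hw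
    have h2 := hpq ⟨chart x.1 X w, Orb.step _ _ x.2⟩
    simp only at h2
    rw [← h2, mul_comm (pev q _), mul_assoc, mul_inv_cancel₀ hw, mul_one]

end Pool.Agent.Helper8.KP
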